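import Pool.Agent.helper62.RS.SpecG
import Pool.Agent.helper62.QU.All

/-!
# Row rs:GYN (MP_07c750_an): Young's inequality for the pairing
-/

set_option autoImplicit false

open scoped MatrixGroups ContDiff Topology UpperHalfPlane
open UpperHalfPlane MeasureTheory Filter Set

namespace Pool.Agent.RS

/-- Cauchy-Schwarz with a weight -/
theorem GYN_cs (w p : ℍ → ℝ) (m : ℝ) (hw : ∀ z, 0 ≤ w z) (hp : ∀ z, 0 ≤ p z) (hpm : ∀ z, p z ≤ m)
    (hwi : Integrable w) (hpc : Continuous p) :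
    (∫ z, w z * p z) ^ 2 ≤ (∫ z, w z) * ∫ z, w z * p z ^ 2 := by
  have h1 : Integrable (fun z => w z * p z) := by
    refine hwi.mul_bdd (c := m) hpc.aestronglyMeasurable (Eventually.of_forall fun z => ?_)
    rw [Real.norm_eq_abs, abs_of_nonneg (hp z)]
    exact hpm z
  have h2 : Integrable (fun z => w z * p z ^ 2) := by
    refine hwi.mul_bdd (c := m ^ 2) (hpc.pow 2).aestronglyMeasurable (Eventually.of_forall fun z => ?_)
    rw [Real.norm_eq_abs, abs_of_nonneg (by positivity)]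
    exact pow_le_pow_left₀ (hp z) (hpm z) 2
  have h3 : ∀ c : ℝ, 0 ≤ (∫ z, w z) * (c * c) + (-2 * ∫ z, w z * p z) * c + ∫ z, w z * p z ^ 2 := by
    intro c
    have h4 : 0 ≤ ∫ z, w z * (p z - c) ^ 2 :=
      integral_nonneg fun z => mul_nonneg (hw z) (sq_nonneg _)
    have h5 : ∫ z, w z * (p z - c) ^ 2 =
        (∫ z, w z) * (c * c) + (-2 * ∫ z, w z * p z) * c + ∫ z, w z * p z ^ 2 := by
      have e1 : (fun z => w z * (p z - c) ^ 2) =
          fun z => (c * c) * w z + ((-2 * c) * (w z * p z) + w z * p z ^ 2) := by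
        funext z
        ring
      have h7 : Integrable (fun z => (-2 * c) * (w z * p z)) := h1.const_mul _
      have h8 : Integrable (fun z => (-2 * c) * (w z * p z) + w z * p z ^ 2) := h7.add h2
      rw [e1, integral_add (hwi.const_mul (c * c)) h8, integral_add h7 h2, integral_const_mul,
        integral_const_mul]
      ring
    rw [h5] at h4
    exact h4
  have h6 := discrim_le_zero h3
  unfold discrim at h6
  nlinarith

theorem GYN (hGLC : GLC_stmt) (hGMG : GMG_stmt) (hGFD : GFD_stmt) (hGBD : GBD_stmt)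
    (hGWB : GWB_stmt) : GYN_stmt := by
  intro Γ F f φ hΓ hF hf hfc hφ
  have : SecondCountableTopology SL(2, ℝ) := hGLC.2.1
  obtain ⟨m, hm⟩ := (QU.A_BDD Γ F (fun z => ‖φ z‖) hΓ hF
    ⟨hφ.1.norm, fun γ z => by simp only [hφ.2 γ z]⟩).1
  have hm' : ∀ z, ‖φ z‖ ≤ m := fun z => (le_abs_self _).trans (hm z)
  have hfi : Integrable f := hf.integrable_of_hasCompactSupport hfc
  obtain ⟨⟨hdm, hdv, hdf, -⟩, hE⟩ := hGFD Γ F hΓ hF
  have : IsFiniteMeasure (mG.restrict (dG F)) := ⟨by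
    rw [Measure.restrict_apply_univ]
    exact hdf⟩
  have hcont : Continuous (fun p : SL(2, ℝ) × ℍ => ‖f p.2‖ * ‖φ (p.1 • p.2)‖ ^ 2) := by
    have h1 : Continuous (fun p : SL(2, ℝ) × ℍ => p.1 • p.2) := continuous_smul
    exact (hf.comp continuous_snd).norm.mul ((hφ.1.comp h1).norm.pow 2)
  have hprod : Integrable (fun p : SL(2, ℝ) × ℍ => ‖f p.2‖ * ‖φ (p.1 • p.2)‖ ^ 2)
      ((mG.restrict (dG F)).prod (volume : Measure ℍ)) := by
    have h1 : Integrable (fun p : SL(2, ℝ) × ℍ => (m ^ 2) * ‖f p.2‖)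
        ((mG.restrict (dG F)).prod (volume : Measure ℍ)) :=
      (integrable_const (m ^ 2)).mul_prod hfi.norm
    refine h1.mono' hcont.aestronglyMeasurable (Eventually.of_forall fun p => ?_)
    rw [Real.norm_eq_abs, abs_of_nonneg (by positivity), mul_comm]
    exact mul_le_mul_of_nonneg_right (pow_le_pow_left₀ (norm_nonneg _) (hm' _) 2) (norm_nonneg _)
  -- Cauchy-Schwarz
  have hCS : ∀ g : SL(2, ℝ), ‖Wf f φ g‖ ^ 2 ≤
      (∫ z : ℍ, ‖f z‖) * ∫ z : ℍ, ‖f z‖ * ‖φ (g • z)‖ ^ 2 := by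
    intro g
    have h1 : ‖Wf f φ g‖ ≤ ∫ z : ℍ, ‖f z‖ * ‖φ (g • z)‖ := by
      unfold Wf
      refine (norm_integral_le_integral_norm _).trans (le_of_eq ?_)
      refine integral_congr_ae (Eventually.of_forall fun z => ?_)
      simp only [norm_mul]
    have h2 := GYN_cs (fun z => ‖f z‖) (fun z => ‖φ (g • z)‖) m (fun z => norm_nonneg _)
      (fun z => norm_nonneg _) (fun z => hm' _) hfi.norm
      ((hφ.1.comp (continuous_const_smul g)).norm)
    exact (pow_le_pow_left₀ (norm_nonneg _) h1 2).trans h2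
  have hW : InvG Γ (Wf f φ) := (hGWB Γ f φ hΓ hf hfc hφ).1
  obtain ⟨M, hM⟩ := (hGBD Γ ℂ (Wf f φ) hΓ hW).1
  have hWi : Integrable (fun g => ‖Wf f φ g‖ ^ 2) (mG.restrict (dG F)) := by
    refine (integrable_const (M ^ 2)).mono' (hW.1.norm.pow 2).aestronglyMeasurable
      (Eventually.of_forall fun g => ?_)
    rw [Real.norm_eq_abs, abs_of_nonneg (by positivity)]
    exact pow_le_pow_left₀ (norm_nonneg _) (hM g) 2
  have hDi : Integrable (fun g : SL(2, ℝ) => ∫ z : ℍ, ‖f z‖ * ‖φ (g • z)‖ ^ 2)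
      (mG.restrict (dG F)) := hprod.integral_prod_left
  have h3 : ∫ g in dG F, ‖Wf f φ g‖ ^ 2 ∂mG ≤
      ∫ g in dG F, ((∫ z : ℍ, ‖f z‖) * ∫ z : ℍ, ‖f z‖ * ‖φ (g • z)‖ ^ 2) ∂mG :=
    integral_mono hWi (hDi.const_mul _) hCS
  refine h3.trans (le_of_eq ?_)
  rw [integral_const_mul]
  have h4 : ∫ g in dG F, (∫ z : ℍ, ‖f z‖ * ‖φ (g • z)‖ ^ 2) ∂mG =
      ∫ z : ℍ, (∫ g in dG F, ‖f z‖ * ‖φ (g • z)‖ ^ 2 ∂mG) :=
    integral_integral_swap hprod
  rw [h4]
  have h5 : ∀ z : ℍ, ∫ g in dG F, ‖f z‖ * ‖φ (g • z)‖ ^ 2 ∂mG =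
      ‖f z‖ * ∫ w in F, ‖φ w‖ ^ 2 := by
    intro z
    rw [integral_const_mul]
    have h6 := (hE ℝ).2.2 (fun w => ‖φ w‖ ^ 2) z (hφ.1.norm.pow 2)
      (fun γ w => by simp only [hφ.2 γ w])
    rw [h6]
  rw [integral_congr_ae (Eventually.of_forall h5), integral_mul_const]
  ring

end Pool.Agent.RS
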